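import Pool.Agent.Q289.OP.Stm

/-!
# Project OP (helper289): positive association for lattice weights carried by the order preserving maps
-/

set_option autoImplicit false

namespace Pool.Agent.Q68.OP

open Q289.OP

theorem asso : S_ASSO := by
  intro ι _ _ _ N w hw F G hF hG
  obtain ⟨KF, hKF⟩ : ∃ z : ℝ, z = ∑ c, |F c| := ⟨_, rfl⟩
  obtain ⟨KG, hKG⟩ : ∃ z : ℝ, z = ∑ c, |G c| := ⟨_, rfl⟩
  have hF0 : ∀ c, 0 ≤ F c + KF := by
    intro c
    have h1 : |F c| ≤ KF := by
      rw [hKF]
      exact Finset.single_le_sum (f := fun c => |F c|) (fun i _ => abs_nonneg _) (Finset.mem_univ c)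
    have h2 := neg_abs_le (F c)
    linarith
  have hG0 : ∀ c, 0 ≤ G c + KG := by
    intro c
    have h1 : |G c| ≤ KG := by
      rw [hKG]
      exact Finset.single_le_sum (f := fun c => |G c|) (fun i _ => abs_nonneg _) (Finset.mem_univ c)
    have h2 := neg_abs_le (G c)
    linarith
  have key := four_functions_theorem_univ (α := ι → Fin (N + 1))
    (fun c => w c * (F c + KF)) (fun c => w c * (G c + KG)) w
    (fun c => w c * ((F c + KF) * (G c + KG)))
    (fun c => mul_nonneg (hw.nonneg c) (hF0 c)) (fun c => mul_nonneg (hw.nonneg c) (hG0 c))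
    hw.nonneg (fun c => mul_nonneg (hw.nonneg c) (mul_nonneg (hF0 c) (hG0 c)))
    (by
      intro a b
      show w a * (F a + KF) * (w b * (G b + KG)) ≤
        w (a ⊓ b) * (w (a ⊔ b) * ((F (a ⊔ b) + KF) * (G (a ⊔ b) + KG)))
      have hr : 0 ≤ w (a ⊓ b) * (w (a ⊔ b) * ((F (a ⊔ b) + KF) * (G (a ⊔ b) + KG))) :=
        mul_nonneg (hw.nonneg _) (mul_nonneg (hw.nonneg _) (mul_nonneg (hF0 _) (hG0 _)))
      rcases (hw.nonneg a).eq_or_lt with ha | ha
      · rw [← ha]
        simpa using hr
      rcases (hw.nonneg b).eq_or_lt with hb | hb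
      · rw [← hb]
        simpa using hr
      have ha' := (hw.pos a).1 ha
      have hb' := (hw.pos b).1 hb
      have hab : Monotone (a ⊔ b) := ha'.sup hb'
      have h1 : F a + KF ≤ F (a ⊔ b) + KF := by
        have := hF a (a ⊔ b) ha' hab le_sup_left
        linarith
      have h2 : G b + KG ≤ G (a ⊔ b) + KG := by
        have := hG b (a ⊔ b) hb' hab le_sup_right
        linarith
      have h3 : (F a + KF) * (G b + KG) ≤ (F (a ⊔ b) + KF) * (G (a ⊔ b) + KG) :=
        mul_le_mul h1 h2 (hG0 _) ((hF0 _).trans h1)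
      have h4 := mul_le_mul (hw.lat a b) h3 (mul_nonneg (hF0 _) (hG0 _))
        (mul_nonneg (hw.nonneg _) (hw.nonneg _))
      calc w a * (F a + KF) * (w b * (G b + KG)) = w a * w b * ((F a + KF) * (G b + KG)) := by ring
        _ ≤ w (a ⊓ b) * w (a ⊔ b) * ((F (a ⊔ b) + KF) * (G (a ⊔ b) + KG)) := h4
        _ = _ := by ring)
  have e1 : ∑ c, w c * (F c + KF) = (∑ c, w c * F c) + KF * ∑ c, w c := by
    rw [Finset.mul_sum, ← Finset.sum_add_distrib]
    exact Finset.sum_congr rfl fun c _ => by ring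
  have e2 : ∑ c, w c * (G c + KG) = (∑ c, w c * G c) + KG * ∑ c, w c := by
    rw [Finset.mul_sum, ← Finset.sum_add_distrib]
    exact Finset.sum_congr rfl fun c _ => by ring
  have e3 : ∑ c, w c * ((F c + KF) * (G c + KG)) = (∑ c, w c * (F c * G c)) +
      KG * (∑ c, w c * F c) + KF * (∑ c, w c * G c) + KF * KG * ∑ c, w c := by
    rw [Finset.mul_sum, Finset.mul_sum, Finset.mul_sum, ← Finset.sum_add_distrib,
      ← Finset.sum_add_distrib, ← Finset.sum_add_distrib]
    exact Finset.sum_congr rfl fun c _ => by ring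
  rw [e1, e2, e3] at key
  nlinarith [key]

end Pool.Agent.Q68.OP
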