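import Pool.Agent.Q289.OP.Stm

/-!
# Project OP (helper289): the volumes `vv c`
-/

set_option autoImplicit false

namespace Pool.Agent.Q68.OP

open Q289.OP MeasureTheory Set

theorem vpos : S_VPOS := by
  intro ι _ _ _ c
  classical
  have hsub : VS c ⊆ Set.pi univ fun _ => Ico (0 : ℝ) 1 := fun u hu i _ => hu.1 i
  have hbox : volume (Set.pi univ fun _ : ι => Ico (0 : ℝ) 1) = 1 := by
    rw [Real.volume_pi_Ico]
    simp
  have hle : volume (VS c) ≤ 1 := (measure_mono hsub).trans (le_of_eq hbox)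
  have hfin : volume (VS c) ≠ ⊤ := ne_top_of_le_ne_top ENNReal.one_ne_top hle
  refine ⟨ENNReal.toReal_nonneg, ?_, ?_, ?_⟩
  · unfold vv
    have h1 := ENNReal.toReal_mono ENNReal.one_ne_top hle
    simpa using h1
  · intro h i j hij
    have hne : (VS c).Nonempty := by
      rw [Set.nonempty_iff_ne_empty]
      intro h1
      unfold vv at h
      rw [h1, measure_empty, ENNReal.toReal_zero] at h
      exact lt_irrefl _ h
    obtain ⟨u, hu1, hu2⟩ := hne
    have h1 : (c i : ℝ) + u i ≤ (c j : ℝ) + u j := hu2 hij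
    have h2 := (hu1 i).1
    have h3 := (hu1 j).2
    have h4 : (c i : ℝ) < ((c j + 1 : ℕ) : ℝ) := by
      push_cast
      linarith
    have h5 : c i < c j + 1 := by exact_mod_cast h4
    omega
  · intro hc
    unfold vv
    obtain ⟨n, hn⟩ : ∃ n : ℕ, n = Fintype.card ι := ⟨_, rfl⟩
    obtain ⟨r, hr⟩ : ∃ r : ι → ℕ, r = fun i => (Finset.univ.filter fun j => j < i).card := ⟨_, rfl⟩
    have hrn : ∀ i, r i ≤ n := by
      intro i
      rw [hr, hn]
      exact Finset.card_le_univ _
    have hrlt : ∀ i j, i < j → r i < r j := by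
      intro i j hij
      rw [hr]
      refine Finset.card_lt_card ?_
      rw [Finset.ssubset_iff_of_subset]
      · exact ⟨i, by simp [hij], by simp⟩
      · intro k hk
        rw [Finset.mem_filter] at hk ⊢
        exact ⟨hk.1, hk.2.trans hij⟩
    obtain ⟨e, he⟩ : ∃ e : ℝ, e = 1 / ((n : ℝ) + 2) := ⟨_, rfl⟩
    have hn0 : (0 : ℝ) ≤ n := Nat.cast_nonneg _
    have he0 : 0 < e := by rw [he]; positivity
    have hen : e * ((n : ℝ) + 2) = 1 := by rw [he]; field_simp
    have hopen : IsOpen (Set.pi univ fun i => Ioo (((r i : ℝ) + 1) * e - e / 4)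
        (((r i : ℝ) + 1) * e + e / 4)) := isOpen_set_pi finite_univ fun i _ => isOpen_Ioo
    have hpos := hopen.measure_pos (μ := (volume : Measure (ι → ℝ)))
      ⟨fun i => ((r i : ℝ) + 1) * e, fun i _ => ⟨by linarith, by linarith⟩⟩
    have hsub2 : (Set.pi univ fun i => Ioo (((r i : ℝ) + 1) * e - e / 4)
        (((r i : ℝ) + 1) * e + e / 4)) ⊆ VS c := by
      intro u hu
      have hu' : ∀ i, ((r i : ℝ) + 1) * e - e / 4 < u i ∧ u i < ((r i : ℝ) + 1) * e + e / 4 :=
        fun i => hu i (mem_univ i)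
      refine ⟨fun i => ⟨?_, ?_⟩, ?_⟩
      · have h1 := (hu' i).1
        have h2 : (0 : ℝ) ≤ r i := Nat.cast_nonneg _
        nlinarith [mul_nonneg h2 he0.le]
      · have h1 := (hu' i).2
        have h2 : (r i : ℝ) ≤ n := by exact_mod_cast hrn i
        nlinarith [mul_le_mul_of_nonneg_right h2 he0.le]
      · intro i j hij
        show (c i : ℝ) + u i ≤ (c j : ℝ) + u j
        rcases hij.eq_or_lt with h | h
        · rw [h]
        · have h1 : (c i : ℝ) ≤ c j := by exact_mod_cast hc hij
          have h2 : (r i : ℝ) + 1 ≤ r j := by exact_mod_cast hrlt i j h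
          have h3 := (hu' i).2
          have h4 := (hu' j).1
          nlinarith [mul_le_mul_of_nonneg_right h2 he0.le]
    exact ENNReal.toReal_pos (hpos.trans_le (measure_mono hsub2)).ne' hfin

end Pool.Agent.Q68.OP
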